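import Mathlib
import Pool.Agent.H545R2.HamCore

set_option autoImplicit false

namespace Pool.Agent.Results.MP_593b6a_co.AllK

open Multiset

variable {V : Type}

/-- `T` arises from `S` by removing one copy of a vertex `u` and adding one copy of a neighbour
`v` of `u`. -/
def Move (G : SimpleGraph V) (S T : Multiset V) : Prop :=
  ∃ (u v : V) (C : Multiset V), G.Adj u v ∧ S = u ::ₘ C ∧ T = v ::ₘ C

lemma Move.symm {G : SimpleGraph V} {S T : Multiset V} (h : Move G S T) : Move G T S := by
  obtain ⟨u, v, C, h1, h2, h3⟩ := h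
  exact ⟨v, u, C, h1.symm, h3, h2⟩

/-- The `k`-multiset graph `M_k(G)`. -/
def multisetGraph (G : SimpleGraph V) (k : ℕ) : SimpleGraph (Sym V k) where
  Adj A B := Move G (A : Multiset V) (B : Multiset V)
  symm := ⟨fun _ _ h => h.symm⟩
  loopless := ⟨by
    rintro A ⟨u, v, C, h1, h2, h3⟩
    have h4 : u = v := (Multiset.cons_inj_left C).1 (h2.symm.trans h3)
    exact h1.ne h4⟩

lemma Move.add_left {G : SimpleGraph V} {S T : Multiset V} (D : Multiset V) (h : Move G S T) :
    Move G (D + S) (D + T) := by
  obtain ⟨u, v, C, h1, h2, h3⟩ := h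
  exact ⟨u, v, D + C, h1, by rw [h2, Multiset.add_cons], by rw [h3, Multiset.add_cons]⟩

lemma Move.cons {G : SimpleGraph V} {S T : Multiset V} (x : V) (h : Move G S T) :
    Move G (x ::ₘ S) (x ::ₘ T) := by
  have := Move.add_left {x} h
  simpa [Multiset.singleton_add] using this

variable [DecidableEq V]

/-- Snake order: a Hamilton path of the multiset graph of a clique, from corner to corner. -/
lemma corner (G : SimpleGraph V) : ∀ (m : ℕ) (X : Finset V), X.card = m + 1 →
    (∀ u ∈ X, ∀ v ∈ X, u ≠ v → G.Adj u v) → ∀ (j : ℕ) (x y : V), x ∈ X → y ∈ X →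
    (x ≠ y ∨ X = {x}) → ∃ L : List (Multiset V), L.Nodup ∧
      (∀ S, S ∈ L ↔ S.card = j ∧ ∀ s ∈ S, s ∈ X) ∧ L.IsChain (Move G) ∧
      L.head? = some (replicate j x) ∧ L.getLast? = some (replicate j y) ∧
      L.length = Nat.multichoose X.card j := by
  intro m
  induction m with
  | zero =>
    intro X hX _ j x y hx hy _
    obtain ⟨z, rfl⟩ := Finset.card_eq_one.1 hX
    rw [Finset.mem_singleton] at hx hy
    subst hx
    subst hy
    refine ⟨[replicate j y], by simp, ?_, by simp, by simp, by simp, by simp⟩
    intro S
    rw [List.mem_singleton, Multiset.eq_replicate]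
    simp
  | succ m ihm =>
    intro X hX hcl j
    induction j with
    | zero =>
      intro x y hx hy _
      refine ⟨[0], by simp, ?_, by simp, by simp, by simp, by simp⟩
      intro S
      rw [List.mem_singleton, Multiset.card_eq_zero]
      constructor
      · rintro rfl
        simp
      · exact fun h => h.1
    | succ j ihj =>
      intro x y hx hy hxy
      have hxy' : x ≠ y := by
        rcases hxy with h | h
        · exact h
        · rw [h, Finset.card_singleton] at hX
          omega
      have hcardE : (X.erase x).card = m + 1 := by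
        rw [Finset.card_erase_of_mem hx, hX]
        rfl
      have hyE : y ∈ X.erase x := Finset.mem_erase.2 ⟨hxy'.symm, hy⟩
      obtain ⟨z, hzE, hz⟩ : ∃ z ∈ X.erase x, z ≠ y ∨ X.erase x = {z} := by
        by_cases h : ∃ z ∈ X.erase x, z ≠ y
        · obtain ⟨z, h1, h2⟩ := h
          exact ⟨z, h1, Or.inl h2⟩
        · push Not at h
          refine ⟨y, hyE, Or.inr ?_⟩
          exact Finset.eq_singleton_iff_unique_mem.2 ⟨hyE, h⟩
      have hzx : z ≠ x := (Finset.mem_erase.1 hzE).1
      have hzX : z ∈ X := (Finset.mem_erase.1 hzE).2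
      obtain ⟨L1, n1, m1, c1, h1, l1, k1⟩ := ihj x z hx hzX (Or.inl hzx.symm)
      obtain ⟨L2, n2, m2, c2, h2, l2, k2⟩ := ihm (X.erase x) hcardE
        (fun u hu v hv huv => hcl u (Finset.mem_of_mem_erase hu) v (Finset.mem_of_mem_erase hv) huv)
        (j + 1) z y hzE hyE hz
      refine ⟨L1.map (fun S => x ::ₘ S) ++ L2, ?_, ?_, ?_, ?_, ?_, ?_⟩
      · refine List.Nodup.append (n1.map (fun a b h => (Multiset.cons_inj_right x).1 h)) n2 ?_
        intro S hS1 hS2
        rw [List.mem_map] at hS1
        obtain ⟨S', -, rfl⟩ := hS1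
        have := ((m2 _).1 hS2).2 x (Multiset.mem_cons_self x S')
        exact (Finset.mem_erase.1 this).1 rfl
      · intro S
        rw [List.mem_append, List.mem_map]
        constructor
        · rintro (⟨S', hS', rfl⟩ | hS)
          · have := (m1 _).1 hS'
            refine ⟨by rw [Multiset.card_cons, this.1], ?_⟩
            intro s hs
            rw [Multiset.mem_cons] at hs
            rcases hs with rfl | hs
            · exact hx
            · exact this.2 s hs
          · have := (m2 _).1 hS
            exact ⟨this.1, fun s hs => Finset.mem_of_mem_erase (this.2 s hs)⟩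
        · rintro ⟨hc, hS⟩
          by_cases hxS : x ∈ S
          · left
            refine ⟨S.erase x, (m1 _).2 ⟨?_, ?_⟩, Multiset.cons_erase hxS⟩
            · rw [Multiset.card_erase_of_mem hxS, hc]
              rfl
            · intro s hs
              exact hS s (Multiset.mem_of_mem_erase hs)
          · right
            refine (m2 _).2 ⟨hc, ?_⟩
            intro s hs
            refine Finset.mem_erase.2 ⟨?_, hS s hs⟩
            rintro rfl
            exact hxS hs
      · rw [List.isChain_append]
        refine ⟨?_, c2, ?_⟩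
        · rw [List.isChain_map]
          exact c1.imp (fun a b h => h.cons x)
        · intro S hS T hT
          rw [List.getLast?_map, l1] at hS
          rw [h2] at hT
          simp only [Option.map_some, Option.mem_def, Option.some.injEq] at hS hT
          subst hS
          subst hT
          exact ⟨x, z, replicate j z, hcl x hx z hzX hzx.symm, rfl, by rw [Multiset.replicate_succ]⟩
      · rw [List.head?_append, List.head?_map, h1]
        simp
      · rw [List.getLast?_append, l2]
        simp
      · have h := Nat.multichoose_succ_succ (m + 1) j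
        rw [List.length_append, List.length_map, k1, k2, hcardE, hX, h]
        omega

/-- A Hamilton path of the multiset graph of a clique with at least three vertices, from the corner
`c^(j+1)` to its neighbour `b c^j`. -/
lemma fiber (G : SimpleGraph V) (X : Finset V) (hX : 3 ≤ X.card)
    (hcl : ∀ u ∈ X, ∀ v ∈ X, u ≠ v → G.Adj u v) (c b : V) (hc : c ∈ X) (hb : b ∈ X) (hcb : c ≠ b)
    (j : ℕ) : ∃ L : List (Multiset V), L.Nodup ∧
      (∀ S, S ∈ L ↔ S.card = j + 1 ∧ ∀ s ∈ S, s ∈ X) ∧ L.IsChain (Move G) ∧
      L.head? = some (replicate (j + 1) c) ∧ L.getLast? = some (b ::ₘ replicate j c) := by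
  obtain ⟨y, hy⟩ : ((X.erase b).erase c).Nonempty := by
    rw [← Finset.card_pos]
    rw [Finset.card_erase_of_mem (Finset.mem_erase.2 ⟨hcb, hc⟩), Finset.card_erase_of_mem hb]
    omega
  have hyE : y ∈ X.erase b := Finset.mem_of_mem_erase hy
  have hyc : y ≠ c := (Finset.mem_erase.1 hy).1
  have hyb : y ≠ b := (Finset.mem_erase.1 hyE).1
  have hyX : y ∈ X := Finset.mem_of_mem_erase hyE
  obtain ⟨m, hm⟩ : ∃ m, X.card = m + 1 + 1 := ⟨X.card - 2, by omega⟩
  have hcardE : (X.erase b).card = m + 1 := by
    rw [Finset.card_erase_of_mem hb, hm]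
    rfl
  obtain ⟨L1, n1, m1, c1, h1, l1, -⟩ := corner G m (X.erase b) hcardE
    (fun u hu v hv huv => hcl u (Finset.mem_of_mem_erase hu) v (Finset.mem_of_mem_erase hv) huv)
    (j + 1) c y (Finset.mem_erase.2 ⟨hcb, hc⟩) hyE (Or.inl hyc.symm)
  obtain ⟨L2, n2, m2, c2, h2, l2, -⟩ := corner G (m + 1) X hm hcl j y c hyX hc (Or.inl hyc)
  refine ⟨L1 ++ L2.map (fun S => b ::ₘ S), ?_, ?_, ?_, ?_, ?_⟩
  · refine List.Nodup.append n1 (n2.map (fun a b h => (Multiset.cons_inj_right _).1 h)) ?_
    intro S hS1 hS2
    rw [List.mem_map] at hS2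
    obtain ⟨S', -, rfl⟩ := hS2
    have := ((m1 _).1 hS1).2 b (Multiset.mem_cons_self b S')
    exact (Finset.mem_erase.1 this).1 rfl
  · intro S
    rw [List.mem_append, List.mem_map]
    constructor
    · rintro (hS | ⟨S', hS', rfl⟩)
      · have := (m1 _).1 hS
        exact ⟨this.1, fun s hs => Finset.mem_of_mem_erase (this.2 s hs)⟩
      · have := (m2 _).1 hS'
        refine ⟨by rw [Multiset.card_cons, this.1], ?_⟩
        intro s hs
        rw [Multiset.mem_cons] at hs
        rcases hs with rfl | hs
        · exact hb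
        · exact this.2 s hs
    · rintro ⟨hcS, hS⟩
      by_cases hxS : b ∈ S
      · right
        refine ⟨S.erase b, (m2 _).2 ⟨?_, ?_⟩, Multiset.cons_erase hxS⟩
        · rw [Multiset.card_erase_of_mem hxS, hcS]
          rfl
        · intro s hs
          exact hS s (Multiset.mem_of_mem_erase hs)
      · left
        refine (m1 _).2 ⟨hcS, ?_⟩
        intro s hs
        refine Finset.mem_erase.2 ⟨?_, hS s hs⟩
        rintro rfl
        exact hxS hs
  · rw [List.isChain_append]
    refine ⟨c1, ?_, ?_⟩
    · rw [List.isChain_map]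
      exact c2.imp (fun a b' h => h.cons b)
    · intro S hS T hT
      rw [List.head?_map, h2] at hT
      rw [l1] at hS
      simp only [Option.map_some, Option.mem_def, Option.some.injEq] at hS hT
      subst hS
      subst hT
      exact ⟨y, b, replicate j y, hcl y hyX b hb hyb, by rw [Multiset.replicate_succ], rfl⟩
  · rw [List.head?_append, h1]
    simp
  · rw [List.getLast?_append, List.getLast?_map, l2]
    simp

/-- Concatenate the blocks `blk t`, reversing every other one. -/
def alt {τ σ : Type} (blk : τ → List σ) : Bool → List τ → List σ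
  | _, [] => []
  | true, t :: l => blk t ++ alt blk false l
  | false, t :: l => (blk t).reverse ++ alt blk true l

lemma alt_perm {τ σ : Type} (blk : τ → List σ) : ∀ (l : List τ) (o : Bool),
    (alt blk o l).Perm (l.flatMap blk) := by
  intro l
  induction l with
  | nil => intro o; cases o <;> simp [alt]
  | cons t l ih =>
    intro o
    rw [List.flatMap_cons]
    cases o
    · exact List.Perm.append (List.reverse_perm _) (ih true)
    · exact List.Perm.append (List.Perm.refl _) (ih false)

lemma alt_chain {τ σ : Type} (blk : τ → List σ) (R : σ → σ → Prop) (hR : ∀ a b, R a b → R b a)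
    (Q : τ → τ → Prop) (f g : τ → σ) (hf : ∀ t t', Q t t' → R (f t) (f t'))
    (hg : ∀ t t', Q t t' → R (g t) (g t')) :
    ∀ (l : List τ) (o : Bool), (∀ t ∈ l, (blk t).head? = some (f t)) →
      (∀ t ∈ l, (blk t).getLast? = some (g t)) → (∀ t ∈ l, (blk t).IsChain R) → l.IsChain Q →
      (alt blk o l).IsChain R ∧
      (alt blk o l).head? = l.head?.map (fun t => if o then f t else g t) ∧
      (alt blk o l).getLast? = l.getLast?.map
        (fun t => if (o = true ↔ Even l.length) then f t else g t) := by
  intro l
  induction l with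
  | nil => intro o _ _ _ _; cases o <;> simp [alt]
  | cons t l ih =>
    intro o h1 h2 h3 h4
    have hrev : ((blk t).reverse).IsChain R := by
      rw [List.isChain_reverse]
      exact (h3 t List.mem_cons_self).imp (fun a b h => hR _ _ h)
    have g1 := h1 t List.mem_cons_self
    have g2 := h2 t List.mem_cons_self
    have g3 := h3 t List.mem_cons_self
    have hl : l.IsChain Q := h4.tail
    have ih' := fun o => ih o (fun t ht => h1 t (List.mem_cons_of_mem _ ht))
      (fun t ht => h2 t (List.mem_cons_of_mem _ ht))
      (fun t ht => h3 t (List.mem_cons_of_mem _ ht)) hl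
    cases l with
    | nil =>
      cases o
      · simp [alt, hrev, g1, g2]
      · simp [alt, g1, g2, g3]
    | cons t' l =>
      rw [List.isChain_cons_cons] at h4
      have hQ := h4.1
      have hpar : ∀ o : Bool, ((!o) = true ↔ Even (t' :: l).length) ↔
          (o = true ↔ Even (t :: t' :: l).length) := by
        intro o
        rw [List.length_cons (a := t), Nat.even_add_one]
        cases o <;> simp
      cases o
      · obtain ⟨i1, i2, i3⟩ := ih' true
        refine ⟨?_, ?_, ?_⟩
        · show ((blk t).reverse ++ alt blk true (t' :: l)).IsChain R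
          rw [List.isChain_append]
          refine ⟨hrev, i1, ?_⟩
          intro x hx y hy
          rw [i2] at hy
          rw [List.getLast?_reverse, g1] at hx
          simp only [Option.mem_def, Option.some.injEq, List.head?_cons, Option.map_some,
            if_true] at hx hy
          subst hx
          subst hy
          exact hf _ _ hQ
        · show ((blk t).reverse ++ alt blk true (t' :: l)).head? = _
          rw [List.head?_append, List.head?_reverse, g2]
          simp
        · show ((blk t).reverse ++ alt blk true (t' :: l)).getLast? = _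
          rw [List.getLast?_append, i3]
          have := hpar false
          simp only [Bool.not_false] at this
          simp only [this, List.getLast?_cons_cons]
          obtain ⟨z, hz⟩ : ∃ z, (t' :: l).getLast? = some z := by
            rw [List.getLast?_eq_some_getLast (by simp)]
            exact ⟨_, rfl⟩
          rw [hz]
          simp
      · obtain ⟨i1, i2, i3⟩ := ih' false
        refine ⟨?_, ?_, ?_⟩
        · show (blk t ++ alt blk false (t' :: l)).IsChain R
          rw [List.isChain_append]
          refine ⟨g3, i1, ?_⟩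
          intro x hx y hy
          rw [i2] at hy
          rw [g2] at hx
          simp only [Option.mem_def, Option.some.injEq, List.head?_cons, Option.map_some] at hx hy
          subst hx
          subst hy
          exact hg _ _ hQ
        · show (blk t ++ alt blk false (t' :: l)).head? = _
          rw [List.head?_append, g1]
          simp
        · show (blk t ++ alt blk false (t' :: l)).getLast? = _
          rw [List.getLast?_append, i3]
          have := hpar true
          simp only [Bool.not_true] at this
          simp only [this, List.getLast?_cons_cons]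
          obtain ⟨z, hz⟩ : ∃ z, (t' :: l).getLast? = some z := by
            rw [List.getLast?_eq_some_getLast (by simp)]
            exact ⟨_, rfl⟩
          rw [hz]
          simp

lemma filter_ne_add_replicate (c : V) (T : Multiset V) :
    T.filter (fun x => x ≠ c) + replicate (T.count c) c = T := by
  rw [← Multiset.filter_eq', add_comm]
  exact Multiset.filter_add_not _ T

/-- The Hamilton cycle of `M_{k+1}(G)`, for `G` two cliques sharing the vertex `c`. -/
lemma cover (G : SimpleGraph V) (A B : Finset V) (c : V) (k : ℕ) (hcA : c ∉ A)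
    (hcB : c ∉ B) (hAB : Disjoint A B) (huniv : ∀ v, v ∈ A ∨ v ∈ insert c B)
    (hclA : ∀ u ∈ insert c A, ∀ v ∈ insert c A, u ≠ v → G.Adj u v)
    (hclB : ∀ u ∈ insert c B, ∀ v ∈ insert c B, u ≠ v → G.Adj u v)
    (hA : 2 ≤ A.card) (hB : 2 ≤ B.card) (heven : Even (Nat.multichoose (A.card + 1) k)) :
    ∃ L : List (Multiset V), L.Nodup ∧ (∀ S, S ∈ L ↔ S.card = k + 1) ∧ L.IsChain (Move G) ∧
      ∀ x ∈ L.getLast?, ∀ y ∈ L.head?, Move G x y := by
  obtain ⟨a1, ha1, a2, ha2, ha12⟩ := Finset.one_lt_card.1 (show 1 < A.card by omega)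
  obtain ⟨b, hb⟩ : B.Nonempty := by
    rw [← Finset.card_pos]
    omega
  have hcb : c ≠ b := by
    rintro rfl
    exact hcB hb
  have hAc : (insert c A).card = A.card + 1 := Finset.card_insert_of_notMem hcA
  have hBc : (insert c B).card = B.card + 1 := Finset.card_insert_of_notMem hcB
  obtain ⟨m, hm⟩ : ∃ m, A.card = m + 1 := ⟨A.card - 1, by omega⟩
  have hcA1 : c ≠ a1 := by
    rintro rfl
    exact hcA ha1
  have hcA2 : c ≠ a2 := by
    rintro rfl
    exact hcA ha2
  have hdisj : ∀ v, v ∈ insert c B → v ∉ A := by
    intro v hv hvA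
    rw [Finset.mem_insert] at hv
    rcases hv with rfl | hv
    · exact hcA hvA
    · exact (Finset.disjoint_left.1 hAB) hvA hv
  obtain ⟨L1, n1, m1, c1, h1, l1, -⟩ := corner G m A hm
    (fun u hu v hv huv => hclA u (Finset.mem_insert_of_mem hu) v (Finset.mem_insert_of_mem hv) huv)
    (k + 1) a1 a2 ha1 ha2 (Or.inl ha12)
  obtain ⟨TT, nT, mT, cT, hT, lT, kT⟩ := corner G (m + 1) (insert c A) (by rw [hAc, hm]) hclA
    k a2 a1 (Finset.mem_insert_of_mem ha2) (Finset.mem_insert_of_mem ha1) (Or.inl ha12.symm)
  have hF := fun j => fiber G (insert c B) (by rw [hBc]; omega) hclB c b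
    (Finset.mem_insert_self _ _) (Finset.mem_insert_of_mem hb) hcb j
  choose F nF mF cF hF lF using hF
  let blk : Multiset V → List (Multiset V) :=
    fun T => (F (T.count c)).map (fun D => T.filter (fun x => x ≠ c) + D)
  have hblk_head : ∀ T, (blk T).head? = some (c ::ₘ T) := by
    intro T
    show ((F (T.count c)).map (fun D => T.filter (fun x => x ≠ c) + D)).head? = _
    rw [List.head?_map, hF]
    simp only [Option.map_some, Option.some.injEq]
    rw [Multiset.replicate_succ, Multiset.add_cons, filter_ne_add_replicate]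
  have hblk_last : ∀ T, (blk T).getLast? = some (b ::ₘ T) := by
    intro T
    show ((F (T.count c)).map (fun D => T.filter (fun x => x ≠ c) + D)).getLast? = _
    rw [List.getLast?_map, lF]
    simp only [Option.map_some, Option.some.injEq]
    rw [Multiset.add_cons, filter_ne_add_replicate]
  have hblk_chain : ∀ T, (blk T).IsChain (Move G) := by
    intro T
    show ((F (T.count c)).map (fun D => T.filter (fun x => x ≠ c) + D)).IsChain (Move G)
    rw [List.isChain_map]
    exact (cF _).imp (fun a b' h => h.add_left _)
  have hblk_nodup : ∀ T, (blk T).Nodup := fun T => (nF _).map (fun a b' h => add_right_injective _ h)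
  -- members of blocks
  have hblk_mem : ∀ T ∈ TT, ∀ S ∈ blk T, S.card = k + 1 ∧
      S.filter (fun x => x ∈ A) = T.filter (fun x => x ≠ c) ∧ ∃ s ∈ S, s ∉ A := by
    intro T hTT S hS
    obtain ⟨D, hD, rfl⟩ := List.mem_map.1 hS
    obtain ⟨hD1, hD2⟩ := (mF _ _).1 hD
    obtain ⟨hT1, hT2⟩ := (mT _).1 hTT
    refine ⟨?_, ?_, ?_⟩
    · have := congrArg Multiset.card (filter_ne_add_replicate c T)
      rw [Multiset.card_add, Multiset.card_replicate, hT1] at this
      rw [Multiset.card_add, hD1]
      omega
    · rw [Multiset.filter_add]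
      have e1 : D.filter (fun x => x ∈ A) = 0 := by
        rw [Multiset.filter_eq_nil]
        exact fun s hs => hdisj s (hD2 s hs)
      have e2 : (T.filter (fun x => x ≠ c)).filter (fun x => x ∈ A) =
          T.filter (fun x => x ≠ c) := by
        rw [Multiset.filter_eq_self]
        intro s hs
        rw [Multiset.mem_filter] at hs
        have := hT2 s hs.1
        rw [Finset.mem_insert] at this
        rcases this with h | h
        · exact absurd h hs.2
        · exact h
      rw [e1, e2, add_zero]
    · obtain ⟨s, hs⟩ : ∃ s, s ∈ D := by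
        apply Multiset.exists_mem_of_ne_zero
        rintro rfl
        simp at hD1
      exact ⟨s, Multiset.mem_add.2 (Or.inr hs), hdisj s (hD2 s hs)⟩
  obtain ⟨i1, i2, i3⟩ := alt_chain blk (Move G) (fun _ _ h => h.symm) (Move G)
    (fun T => c ::ₘ T) (fun T => b ::ₘ T) (fun _ _ h => h.cons c) (fun _ _ h => h.cons b)
    TT true (fun T _ => hblk_head T) (fun T _ => hblk_last T) (fun T _ => hblk_chain T) cT
  have hperm := alt_perm blk TT true
  have hlen : Even TT.length := by rw [kT, hAc]; exact heven
  refine ⟨L1 ++ alt blk true TT, ?_, ?_, ?_, ?_⟩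
  · refine List.Nodup.append n1 ?_ ?_
    · rw [hperm.nodup_iff, List.nodup_flatMap]
      refine ⟨fun T _ => hblk_nodup T, ?_⟩
      refine nT.pairwise_of_forall_ne ?_
      intro T hTT T' hTT' hne S hS hS'
      apply hne
      have e1 := (hblk_mem T hTT S hS).2.1
      have e2 := (hblk_mem T' hTT' S hS').2.1
      have e3 := filter_ne_add_replicate c T
      have e4 := filter_ne_add_replicate c T'
      have e5 : T.count c = T'.count c := by
        have h3 := congrArg Multiset.card e3
        have h4 := congrArg Multiset.card e4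
        rw [Multiset.card_add, Multiset.card_replicate, ((mT _).1 hTT).1, ← e1] at h3
        rw [Multiset.card_add, Multiset.card_replicate, ((mT _).1 hTT').1, ← e2] at h4
        omega
      rw [← e3, ← e4, ← e1, ← e2, e5]
    · intro S hS hS'
      rw [hperm.mem_iff, List.mem_flatMap] at hS'
      obtain ⟨T, hTT, hST⟩ := hS'
      obtain ⟨-, -, s, hs, hsA⟩ := hblk_mem T hTT S hST
      exact hsA (((m1 _).1 hS).2 s hs)
  · intro S
    rw [List.mem_append, hperm.mem_iff, List.mem_flatMap]
    constructor
    · rintro (hS | ⟨T, hTT, hS⟩)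
      · exact ((m1 _).1 hS).1
      · exact (hblk_mem T hTT S hS).1
    · intro hS
      by_cases hall : ∀ s ∈ S, s ∈ A
      · exact Or.inl ((m1 _).2 ⟨hS, hall⟩)
      · right
        push Not at hall
        obtain ⟨s, hs, hsA⟩ := hall
        have hpart := Multiset.filter_add_not (fun x => x ∈ A) S
        have hcard := congrArg Multiset.card hpart
        rw [Multiset.card_add, hS] at hcard
        have hpos : 0 < (S.filter (fun x => x ∉ A)).card := by
          rw [Multiset.card_pos_iff_exists_mem]
          exact ⟨s, Multiset.mem_filter.2 ⟨hs, hsA⟩⟩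
        set α := S.filter (fun x => x ∈ A) with hα
        have hcα : c ∉ α := fun h => hcA (Multiset.mem_filter.1 h).2
        have hT1 : (α + replicate (k - α.card) c).filter (fun x => x ≠ c) = α := by
          rw [Multiset.filter_add]
          have e1 : (replicate (k - α.card) c).filter (fun x => x ≠ c) = 0 := by
            rw [Multiset.filter_eq_nil]
            intro s hs
            rw [Multiset.eq_of_mem_replicate hs]
            simp
          have e2 : α.filter (fun x => x ≠ c) = α := by
            rw [Multiset.filter_eq_self]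
            rintro s hs rfl
            exact hcα hs
          rw [e1, e2, add_zero]
        have hT2 : (α + replicate (k - α.card) c).count c = k - α.card := by
          rw [Multiset.count_add, Multiset.count_eq_zero_of_notMem hcα,
            Multiset.count_replicate_self, zero_add]
        refine ⟨α + replicate (k - α.card) c, (mT _).2 ⟨?_, ?_⟩, ?_⟩
        · rw [Multiset.card_add, Multiset.card_replicate]
          omega
        · intro s hs
          rw [Multiset.mem_add] at hs
          rcases hs with hs | hs
          · exact Finset.mem_insert_of_mem (Multiset.mem_filter.1 hs).2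
          · rw [Multiset.eq_of_mem_replicate hs]
            exact Finset.mem_insert_self _ _
        · show S ∈ (F _).map (fun D => (α + replicate (k - α.card) c).filter (fun x => x ≠ c) + D)
          rw [List.mem_map]
          refine ⟨S.filter (fun x => x ∉ A), ?_, ?_⟩
          · rw [mF, hT2]
            refine ⟨by omega, ?_⟩
            intro s hs
            rcases huniv s with h | h
            · exact absurd h (Multiset.mem_filter.1 hs).2
            · exact h
          · rw [hT1]
            exact hpart
  · rw [List.isChain_append]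
    refine ⟨c1, i1, ?_⟩
    intro x hx y hy
    rw [l1] at hx
    rw [i2, hT] at hy
    simp only [Option.mem_def, Option.some.injEq, Option.map_some, if_true] at hx hy
    subst hx
    subst hy
    refine ⟨a2, c, replicate k a2, hclA a2 (Finset.mem_insert_of_mem ha2) c
      (Finset.mem_insert_self _ _) hcA2.symm, by rw [Multiset.replicate_succ], rfl⟩
  · intro x hx y hy
    rw [List.getLast?_append, i3, lT] at hx
    rw [List.head?_append, h1] at hy
    simp only [hlen, Option.mem_def, Option.map_some, if_true, Option.some_or,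
      Option.some.injEq] at hx hy
    subst hx
    subst hy
    refine ⟨c, a1, replicate k a1, hclA c (Finset.mem_insert_self _ _) a1
      (Finset.mem_insert_of_mem ha1) hcA1, rfl, by rw [Multiset.replicate_succ]⟩

/-- Two cliques, on `p + 1` and `q + 1` vertices, sharing the vertex `none`. -/
def twoCliques (p q : ℕ) : SimpleGraph (Option (Fin p ⊕ Fin q)) where
  Adj u v := u ≠ v ∧ ¬ ((∃ i, u = some (Sum.inl i)) ∧ ∃ j, v = some (Sum.inr j)) ∧
    ¬ ((∃ i, v = some (Sum.inl i)) ∧ ∃ j, u = some (Sum.inr j))
  symm := ⟨fun _ _ h => ⟨h.1.symm, h.2.2, h.2.1⟩⟩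
  loopless := ⟨fun _ h => h.1 rfl⟩

lemma twoCliques_not_isHamiltonian (p q : ℕ) (hp : 1 ≤ p) (hq : 1 ≤ q) :
    ¬ (twoCliques p q).IsHamiltonian := by
  intro h
  have hcard : 3 ≤ Fintype.card (Option (Fin p ⊕ Fin q)) := by
    rw [Fintype.card_option, Fintype.card_sum, Fintype.card_fin, Fintype.card_fin]
    omega
  obtain ⟨σ, h1, -, h3⟩ := Pool.Agent.H545R2.exists_perm_of_isHamiltonian hcard h
  -- the predecessor of the cut vertex
  set w := σ.symm none with hw
  have hσw : σ w = none := by rw [hw]; exact Equiv.apply_symm_apply _ _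
  have key1 : (∃ i, w = some (Sum.inl i)) := by
    by_contra hcon
    have := h3 {v | ∃ i, v = some (Sum.inl i)} ⟨some (Sum.inl ⟨0, hp⟩), ⟨_, rfl⟩⟩ (by
      rintro v ⟨i, rfl⟩
      have hadj := h1 (some (Sum.inl i))
      rcases hσ : σ (some (Sum.inl i)) with _ | (i' | j)
      · exfalso
        apply hcon
        refine ⟨i, ?_⟩
        exact σ.injective (hσw.trans hσ.symm)
      · exact ⟨i', rfl⟩
      · exfalso
        exact hadj.2.1 ⟨⟨i, rfl⟩, ⟨j, hσ⟩⟩)
    have h4 : (none : Option (Fin p ⊕ Fin q)) ∈ {v | ∃ i, v = some (Sum.inl i)} := by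
      rw [this]; trivial
    obtain ⟨i, hi⟩ := h4
    cases hi
  have key2 : (∃ i, w = some (Sum.inr i)) := by
    by_contra hcon
    have := h3 {v | ∃ i, v = some (Sum.inr i)} ⟨some (Sum.inr ⟨0, hq⟩), ⟨_, rfl⟩⟩ (by
      rintro v ⟨i, rfl⟩
      have hadj := h1 (some (Sum.inr i))
      rcases hσ : σ (some (Sum.inr i)) with _ | (i' | j)
      · exfalso
        apply hcon
        refine ⟨i, ?_⟩
        exact σ.injective (hσw.trans hσ.symm)
      · exfalso
        exact hadj.2.2 ⟨⟨i', hσ⟩, ⟨i, rfl⟩⟩
      · exact ⟨j, rfl⟩)
    have h4 : (none : Option (Fin p ⊕ Fin q)) ∈ {v | ∃ i, v = some (Sum.inr i)} := by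
      rw [this]; trivial
    obtain ⟨i, hi⟩ := h4
    cases hi
  obtain ⟨i, hi⟩ := key1
  obtain ⟨j, hj⟩ := key2
  rw [hi] at hj
  cases hj

lemma twoCliques_multiset (p q k : ℕ) (hp : 2 ≤ p) (hq : 2 ≤ q)
    (heven : Even (Nat.multichoose (p + 1) k)) (hk : 1 ≤ k) :
    (multisetGraph (twoCliques p q) (k + 1)).IsHamiltonian := by
  let A : Finset (Option (Fin p ⊕ Fin q)) := Finset.univ.map
    ⟨fun i : Fin p => some (Sum.inl i), fun a b h => by simpa using h⟩
  let B : Finset (Option (Fin p ⊕ Fin q)) := Finset.univ.map
    ⟨fun i : Fin q => some (Sum.inr i), fun a b h => by simpa using h⟩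
  have mA : ∀ v, v ∈ A ↔ ∃ i, v = some (Sum.inl i) := by
    intro v
    simp only [A, Finset.mem_map, Finset.mem_univ, true_and, Function.Embedding.coeFn_mk]
    exact ⟨fun ⟨i, hi⟩ => ⟨i, hi.symm⟩, fun ⟨i, hi⟩ => ⟨i, hi.symm⟩⟩
  have mB : ∀ v, v ∈ B ↔ ∃ i, v = some (Sum.inr i) := by
    intro v
    simp only [B, Finset.mem_map, Finset.mem_univ, true_and, Function.Embedding.coeFn_mk]
    exact ⟨fun ⟨i, hi⟩ => ⟨i, hi.symm⟩, fun ⟨i, hi⟩ => ⟨i, hi.symm⟩⟩
  have cA : A.card = p := by simp [A]
  have cB : B.card = q := by simp [B]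
  have hcA : (none : Option (Fin p ⊕ Fin q)) ∉ A := by
    rw [mA]
    rintro ⟨i, hi⟩
    cases hi
  have hcB : (none : Option (Fin p ⊕ Fin q)) ∉ B := by
    rw [mB]
    rintro ⟨i, hi⟩
    cases hi
  have hAB : Disjoint A B := by
    rw [Finset.disjoint_left]
    intro v hv hv'
    rw [mA] at hv
    rw [mB] at hv'
    obtain ⟨i, rfl⟩ := hv
    obtain ⟨j, hj⟩ := hv'
    cases hj
  obtain ⟨L, hnd, hmem, hchain, hclose⟩ := cover (twoCliques p q) A B none k hcA hcB hAB
    (by
      intro v
      rcases v with _ | (i | j)
      · exact Or.inr (Finset.mem_insert_self _ _)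
      · exact Or.inl ((mA _).2 ⟨i, rfl⟩)
      · exact Or.inr (Finset.mem_insert_of_mem ((mB _).2 ⟨j, rfl⟩)))
    (by
      intro u hu v hv huv
      rw [Finset.mem_insert, mA] at hu hv
      refine ⟨huv, ?_, ?_⟩
      · rintro ⟨-, j, hj⟩
        rcases hv with hv | ⟨i, hv⟩
        · rw [hv] at hj; cases hj
        · rw [hv] at hj; cases hj
      · rintro ⟨-, j, hj⟩
        rcases hu with hu | ⟨i, hu⟩
        · rw [hu] at hj; cases hj
        · rw [hu] at hj; cases hj)
    (by
      intro u hu v hv huv
      rw [Finset.mem_insert, mB] at hu hv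
      refine ⟨huv, ?_, ?_⟩
      · rintro ⟨⟨j, hj⟩, -⟩
        rcases hu with hu | ⟨i, hu⟩
        · rw [hu] at hj; cases hj
        · rw [hu] at hj; cases hj
      · rintro ⟨⟨j, hj⟩, -⟩
        rcases hv with hv | ⟨i, hv⟩
        · rw [hv] at hj; cases hj
        · rw [hv] at hj; cases hj)
    (by omega) (by omega) (by rw [cA]; exact heven)
  obtain ⟨L, rfl⟩ : ∃ L' : List (Sym (Option (Fin p ⊕ Fin q)) (k + 1)),
      L = L'.map (fun S : Sym (Option (Fin p ⊕ Fin q)) (k + 1) => S.1) := by
    refine ⟨L.attach.map (fun S => (⟨S.1, (hmem S.1).1 S.2⟩ :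
      Sym (Option (Fin p ⊕ Fin q)) (k + 1))), ?_⟩
    rw [List.map_map]
    exact (List.attach_map_subtype_val L).symm
  have hnd' : L.Nodup := hnd.of_map
  have hmem' : ∀ S, S ∈ L := by
    intro S
    have := (hmem S).2 S.2
    rw [List.mem_map] at this
    obtain ⟨S', hS', he⟩ := this
    have : S' = S := Subtype.ext he
    rwa [← this]
  have hchain' : L.IsChain (multisetGraph (twoCliques p q) (k + 1)).Adj := by
    rw [List.isChain_map] at hchain
    exact hchain
  refine Pool.Agent.H545R2.isHamiltonian_of_list L hnd' hmem' ?_ hchain' ?_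
  · -- at least three multisets
    have h3 : (Finset.univ : Finset (Sym (Option (Fin p ⊕ Fin q)) (k + 1))) ⊆ L.toFinset := by
      intro S _
      exact List.mem_toFinset.2 (hmem' S)
    have h4 := (Finset.card_le_card h3).trans (List.toFinset_card_le L)
    rw [Finset.card_univ, Sym.card_sym_eq_multichoose, Fintype.card_option, Fintype.card_sum,
      Fintype.card_fin, Fintype.card_fin, Nat.multichoose_eq] at h4
    have h5 : p + q + 1 ≤ (p + q + 1 + (k + 1) - 1).choose (k + 1) := by
      have h6 : (p + q + 1 + (k + 1) - 1).choose (k + 1) = (p + q + k + 1).choose (p + q) := by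
        have : p + q + 1 + (k + 1) - 1 = p + q + k + 1 := by omega
        rw [this]
        apply Nat.choose_symm_of_eq_add
        omega
      rw [h6]
      calc p + q + 1 = (p + q + 1).choose (p + q) := by rw [Nat.choose_succ_self_right]
        _ ≤ (p + q + k + 1).choose (p + q) := Nat.choose_le_choose _ (by omega)
    omega
  · intro x hx y hy
    refine hclose x ?_ y ?_
    · rw [List.getLast?_map, hx]
      rfl
    · rw [List.head?_map, hy]
      rfl

/-- **Q1, for every `k ≥ 2`** (so in particular for every `k ≥ 3`): there are non-Hamiltonian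
graphs `G`, with arbitrarily many vertices, whose `k`-multiset graph is Hamiltonian. -/
theorem result (k : ℕ) (hk : 2 ≤ k) (N : ℕ) :
    ∃ (V : Type) (_ : Fintype V) (_ : DecidableEq V) (G : SimpleGraph V),
      k + 1 ≤ Fintype.card V ∧ N ≤ Fintype.card V ∧
      ¬ G.IsHamiltonian ∧ (multisetGraph G k).IsHamiltonian := by
  obtain ⟨k', rfl⟩ : ∃ k', k = k' + 1 := ⟨k - 1, by omega⟩
  have h1 : k' + 1 + N < 2 ^ (k' + 1 + N) := Nat.lt_two_pow_self
  have h2 : 2 * (k' + N) < 2 ^ (k' + 1 + N) := by
    have : k' + N < 2 ^ (k' + N) := Nat.lt_two_pow_self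
    have h3 : 2 ^ (k' + 1 + N) = 2 * 2 ^ (k' + N) := by
      rw [show k' + 1 + N = (k' + N) + 1 by ring, pow_succ]
      ring
    omega
  refine ⟨Option (Fin (2 ^ (k' + 1 + N) - k') ⊕ Fin 2), inferInstance, inferInstance,
    twoCliques _ 2, ?_, ?_, ?_, ?_⟩
  · rw [Fintype.card_option, Fintype.card_sum, Fintype.card_fin, Fintype.card_fin]
    omega
  · rw [Fintype.card_option, Fintype.card_sum, Fintype.card_fin, Fintype.card_fin]
    omega
  · exact twoCliques_not_isHamiltonian _ _ (by omega) (by omega)
  · refine twoCliques_multiset _ _ _ (by omega) le_rfl ?_ (by omega)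
    rw [Nat.multichoose_eq]
    have h3 : 2 ^ (k' + 1 + N) - k' + 1 + k' - 1 = 2 ^ (k' + 1 + N) := by omega
    rw [h3, even_iff_two_dvd]
    exact Nat.prime_two.dvd_choose_pow (by omega) (by omega)

end Pool.Agent.Results.MP_593b6a_co.AllK
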